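import Pool.Agent.Helper30.Full.GoalsW

/-!
# Packet W4 of MP_ac806c_lc: the estimates on `X / Ψ_n(g) X`
-/

set_option autoImplicit false
set_option linter.unusedSectionVars false

namespace Pool.Agent.Helper5.Full

open Pool.Agent.Helper30.Full Polynomial

universe u

/-- the image of `A` is contained in the image of `B` -/
def LeE {E : Type u} [AddCommGroup E] (A B : AddMonoid.End E) : Prop := ∀ x, ∃ y, A x = B y

section le
variable {E : Type u} [AddCommGroup E] {A B C D : AddMonoid.End E}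

lemma LeE.rfl' (A : AddMonoid.End E) : LeE A A := fun x => ⟨x, rfl⟩

lemma LeE.trans (h1 : LeE A B) (h2 : LeE B C) : LeE A C := fun x => by
  obtain ⟨y, hy⟩ := h1 x
  obtain ⟨z, hz⟩ := h2 y
  exact ⟨z, hy.trans hz⟩

lemma LeE.mulL (C : AddMonoid.End E) (h : LeE A B) : LeE (C * A) (C * B) := fun x => by
  obtain ⟨y, hy⟩ := h x
  exact ⟨y, congrArg C hy⟩

lemma LeE.right (A C : AddMonoid.End E) : LeE (A * C) A := fun x => ⟨C x, rfl⟩

lemma LeE.mul (hc : Commute A D) (h1 : LeE A B) (h2 : LeE C D) : LeE (A * C) (D * B) :=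
  fun x => by
  obtain ⟨y, hy⟩ := h2 x
  obtain ⟨z, hz⟩ := h1 y
  refine ⟨z, ?_⟩
  have h3 : A (D y) = D (A y) := congrArg (fun f : AddMonoid.End E => f y) hc
  show A (C x) = D (B z)
  rw [hy, h3, hz]

lemma LeE.add (h1 : LeE A C) (h2 : LeE B C) : LeE (A + B) C := fun x => by
  obtain ⟨y, hy⟩ := h1 x
  obtain ⟨z, hz⟩ := h2 x
  refine ⟨y + z, ?_⟩
  rw [map_add, ← hy, ← hz]
  rfl

lemma LeE.pow (hc : Commute A B) (h : LeE A B) (n : ℕ) : LeE (A ^ n) (B ^ n) := by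
  induction n with
  | zero => rw [pow_zero, pow_zero]; exact LeE.rfl' _
  | succ n ih =>
    rw [pow_succ' A, pow_succ B]
    exact LeE.mul (hc.pow_right n) h ih

lemma LeE.pow_le (A : AddMonoid.End E) {i j : ℕ} (h : i ≤ j) : LeE (A ^ j) (A ^ i) := by
  obtain ⟨k, rfl⟩ := Nat.exists_eq_add_of_le h
  rw [pow_add]
  exact LeE.right _ _

lemma pi_pow_apply (p i : ℕ) (x : E) : (((p : ℕ) : AddMonoid.End E) ^ i) x = p ^ i • x := by
  rw [← Nat.cast_pow]; rfl

end le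

section core
variable {p : ℕ} [Fact p.Prime] {d : ℕ} {E : Type u} [AddCommGroup E] [TopologicalSpace E]
  [IsTopologicalAddGroup E] [CompactSpace E] [T2Space E] (b : Act p d E)


lemma comm_pi (A : AddMonoid.End E) : Commute ((p : ℕ) : AddMonoid.End E) A := Nat.cast_commute _ _

lemma step0 {k : Fin d → ℤ_[p]} : ∃ Q : AddMonoid.End E,
    b.T (p • k) = b.T k ^ p + ((p : ℕ) : AddMonoid.End E) * (b.T k * Q) := by
  obtain ⟨P, hP⟩ := T_ppow b 1 k
  rw [pow_one] at hP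
  exact ⟨aeval (b.T k) P, by rw [hP, nsmul_eq_mul]⟩

lemma step1 {k : Fin d → ℤ_[p]} {j : ℕ} (hj : 1 ≤ j) (h : LeE (b.T k) (((p : ℕ) : AddMonoid.End E) ^ j)) :
    LeE (b.T (p • k)) (((p : ℕ) : AddMonoid.End E) ^ (j + 1)) := by
  obtain ⟨Q, hQ⟩ := step0 b (k := k)
  rw [hQ]
  have hp := (Fact.out : p.Prime).two_le
  apply LeE.add
  · have h1 : LeE (b.T k ^ p) (b.T k ^ 2) := LeE.pow_le _ hp
    have h2 : LeE (b.T k ^ 2) ((((p : ℕ) : AddMonoid.End E) ^ j) ^ 2) := LeE.pow ((comm_pi _).pow_left j).symm h 2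
    refine (h1.trans h2).trans ?_
    rw [← pow_mul]
    exact LeE.pow_le _ (by omega)
  · have h1 : LeE (((p : ℕ) : AddMonoid.End E) * (b.T k * Q)) (((p : ℕ) : AddMonoid.End E) * b.T k) := LeE.mulL _ (LeE.right _ _)
    refine h1.trans ?_
    rw [pow_succ']
    exact LeE.mulL _ h

lemma stepn {k : Fin d → ℤ_[p]} (h : LeE (b.T k) ((p : ℕ) : AddMonoid.End E)) (i : ℕ) :
    LeE (b.T (p ^ i • k)) (((p : ℕ) : AddMonoid.End E) ^ (i + 1)) := by
  induction i with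
  | zero => simpa using h
  | succ i ih =>
    have h1 : p ^ (i + 1) • k = p • (p ^ i • k) := by rw [pow_succ', mul_smul]
    rw [h1]
    exact step1 b (by omega) ih

lemma not_dvd_sub {a c : ℤ_[p]} (h : ¬ (p : ℤ_[p]) ∣ a) (hc : (p : ℤ_[p]) ∣ c) :
    ¬ (p : ℤ_[p]) ∣ a - c := fun h1 => h (by simpa using dvd_add h1 hc)

lemma unit_e0 {s : ℕ} (hs : 0 < s) (hsd : s ≤ d) : Unit' 0 s (e0 p d) := by
  refine ⟨⟨0, by omega⟩, Nat.zero_le _, hs, ?_⟩
  rw [e0_zero rfl]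
  intro h
  have := isUnit_of_dvd_one h
  exact (PadicInt.prime_p (p := p)).not_isUnit this

lemma Psi_mul (w : Fin d → ℤ_[p]) (a : ℕ) :
    b.T (p ^ (a + 1) • w) = Psi b w a * b.T (p ^ a • w) := by
  have h1 : Psi b w a = ∑ i ∈ Finset.range p, b.σ (p ^ a • w) ^ i := by
    unfold Psi
    refine Finset.sum_congr rfl fun i _ => ?_
    rw [← σ_nsmul, ← mul_smul]
  rw [h1]
  unfold Act.T
  rw [geom_sum_mul, ← σ_nsmul, ← mul_smul, ← pow_succ']

lemma Psi_comm (w u : Fin d → ℤ_[p]) (a : ℕ) : Commute (Psi b w a) (b.T u) := by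
  unfold Psi
  exact Commute.sum_left _ _ _ fun i _ => (T_comm_σ b u _).symm

theorem core (hSq : StmtSq.{u}) (s m n : ℕ) (hs : 0 < s) (hsd : s ≤ d) (hD : DomW b s m)
    (C : CycW b (e0 p d) n) :
    LeE ((p : ℕ) : AddMonoid.End E) (b.T (e0 p d) ^ (p ^ n * (p - 1))) ∧ LeE (b.T (e0 p d) ^ (p ^ n * (p - 1))) ((p : ℕ) : AddMonoid.End E) ∧
    (∀ j, j + m ≤ n → ∀ u : Fin d → ℤ_[p], Unit' 0 s u →
      LeE (b.T (e0 p d) ^ p ^ (m + j)) (b.T (p ^ j • u))) ∧
    (∀ l, m + 1 ≤ n → n + m + 2 ≤ l → ∀ k, LeE (b.T (p ^ l • k)) (((p : ℕ) : AddMonoid.End E) ^ (l - n - m))) ∧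
    (∀ l, m + 1 ≤ n → n + m + 2 ≤ l → ∀ w : Fin d → ℤ_[p], Unit' 1 s w →
      LeE (((p : ℕ) : AddMonoid.End E) ^ (l - n - m - 2 + (2 * p ^ m + p ^ m * (m + 1)))) (b.T (p ^ l • w))) := by
  set g := e0 p d with hg
  set T := b.T g with hT
  set N := p ^ n * (p - 1) with hN
  have hp := (Fact.out : p.Prime).two_le
  have P1 : LeE ((p : ℕ) : AddMonoid.End E) (T ^ N) := fun x => by
    obtain ⟨z, -, hz⟩ := C.p1 ⊤ (fun _ _ _ => AddSubgroup.mem_top _) x (AddSubgroup.mem_top _)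
    exact ⟨z, hz⟩
  have P2 : LeE (T ^ N) ((p : ℕ) : AddMonoid.End E) := fun x => by
    obtain ⟨z, -, hz⟩ := C.p2 ⊤ (fun _ _ _ => AddSubgroup.mem_top _) x (AddSubgroup.mem_top _)
    exact ⟨z, hz⟩
  have hDom : ∀ u, Unit' 0 s u → ∀ k, LeE (b.T (p ^ m • k)) (b.T u) := fun u hu k x => hD u hu k x
  have HA : m ≤ n → ∀ u, Unit' 0 s u → LeE (T ^ p ^ m) (b.T u) := by
    intro hmn u hu
    have h1 : LeE (T ^ p ^ m) (b.T (p ^ m • g)) := fun x => by
      obtain ⟨z, -, hz⟩ := C.q2 m hmn ⊤ (fun _ _ _ => AddSubgroup.mem_top _) x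
        (AddSubgroup.mem_top _)
      exact ⟨z, hz⟩
    exact h1.trans (hDom u hu g)
  have HUP : ∀ l, m + 1 ≤ n → n + m + 2 ≤ l → ∀ k, LeE (b.T (p ^ l • k)) (((p : ℕ) : AddMonoid.End E) ^ (l - n - m)) := by
    intro l hmn hl k
    have h1 : ∀ i ≤ n + 1, LeE (b.T (p ^ i • (p ^ m • k))) (T ^ p ^ i) := by
      intro i
      induction i with
      | zero =>
        intro _
        rw [pow_zero, pow_one, one_smul]
        exact hDom g (unit_e0 hs hsd) k
      | succ i ih =>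
        intro hi
        have ih := ih (by omega)
        have h2 : p ^ (i + 1) • (p ^ m • k) = p • (p ^ i • (p ^ m • k)) := by
          rw [pow_succ', mul_smul]
        obtain ⟨Q, hQ⟩ := step0 b (k := p ^ i • (p ^ m • k))
        rw [h2, hQ]
        apply LeE.add
        · have h3 := LeE.pow ((T_comm b _ g).pow_right (p ^ i)) ih p
          rw [← pow_mul, ← pow_succ] at h3
          exact h3
        · refine (LeE.mulL _ (LeE.right _ _)).trans ((LeE.mulL _ ih).trans ?_)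
          have h4 : LeE (((p : ℕ) : AddMonoid.End E) * T ^ p ^ i) (T ^ p ^ i * T ^ N) :=
            LeE.mul (comm_pi _) P1 (LeE.rfl' _)
          refine h4.trans ?_
          rw [← pow_add]
          apply LeE.pow_le
          have h5 : p ^ (i + 1) = p ^ i + p ^ i * (p - 1) := by
            obtain ⟨q, rfl⟩ : ∃ q, p = q + 1 := ⟨p - 1, by omega⟩
            rw [pow_succ, Nat.add_sub_cancel]
            ring
          have h6 : p ^ i * (p - 1) ≤ p ^ n * (p - 1) :=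
            Nat.mul_le_mul_right _ (Nat.pow_le_pow_right (by omega) (by omega))
          omega
    have h2 := h1 (n + 1) le_rfl
    have h3 : LeE (b.T (p ^ (n + 1) • (p ^ m • k))) ((p : ℕ) : AddMonoid.End E) := by
      refine h2.trans (LeE.trans (LeE.pow_le _ ?_) P2)
      rw [hN, pow_succ]
      exact Nat.mul_le_mul_left _ (by omega)
    have h4 := stepn b h3 (l - n - m - 1)
    have h6 : l - n - m - 1 + 1 = l - n - m := by omega
    have h7 : p ^ (l - n - m - 1) • (p ^ (n + 1) • (p ^ m • k)) = p ^ l • k := by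
      rw [← mul_smul, ← mul_smul, ← pow_add, ← pow_add]
      congr 2; omega
    rw [h6, h7] at h4
    exact h4
  refine ⟨P1, P2, ?_, HUP, ?_⟩
  · intro j hj u hu
    have hpow : p ^ (m + j) = p ^ m * p ^ j := pow_add _ _ _
    rw [hpow]
    refine C.r3 u (p ^ m) j (by omega) fun z => HA (by omega) _ ?_
    obtain ⟨i, h0, hi, hu⟩ := hu
    refine ⟨i, h0, hi, ?_⟩
    show ¬ (p : ℤ_[p]) ∣ u i - ((p ^ (n + 1 - j) * z) • g) i
    apply not_dvd_sub hu
    obtain ⟨t, ht⟩ : ∃ t, n + 1 - j = t + 1 := ⟨n - j, by omega⟩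
    rw [ht, Pi.smul_apply, nsmul_eq_mul, Nat.cast_mul, Nat.cast_pow, pow_succ']
    exact Dvd.dvd.mul_right (Dvd.dvd.mul_right (Dvd.intro _ rfl) _) _
  · intro l hmn hl w hw
    have HA' := HA (by omega)
    have hR1 : LeE (T ^ (p ^ m * p ^ (n + 1))) (b.T (p ^ (n + 1) • w)) := by
      refine C.r1 w (p ^ m) fun z => HA' _ ?_
      obtain ⟨i, h0, hi, hu⟩ := hw
      refine ⟨i, Nat.zero_le _, hi, ?_⟩
      show ¬ (p : ℤ_[p]) ∣ w i - (z • g) i
      have : (z • g) i = 0 := by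
        rw [Pi.smul_apply, hg]
        unfold e0
        rw [if_neg (by omega), smul_zero]
      rw [this, sub_zero]
      exact hu
    have hB : LeE (((p : ℕ) : AddMonoid.End E) ^ (2 * p ^ m)) (b.T (p ^ (n + 1) • w)) := by
      have h1 := LeE.pow (comm_pi _) P1 (2 * p ^ m)
      refine h1.trans (LeE.trans ?_ hR1)
      rw [← pow_mul]
      apply LeE.pow_le
      have h5 : p ^ (n + 1) ≤ p ^ n * (p - 1) * 2 := by
        rw [pow_succ, mul_assoc]
        exact Nat.mul_le_mul_left _ (by omega)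
      calc p ^ m * p ^ (n + 1) ≤ p ^ m * (p ^ n * (p - 1) * 2) := Nat.mul_le_mul_left _ h5
        _ = N * (2 * p ^ m) := by rw [hN]; ring
    have hR2 : ∀ j, 1 ≤ j → LeE (((p : ℕ) : AddMonoid.End E) ^ p ^ m) (Psi b w (n + j)) := by
      intro j hj
      have h1 : LeE (T ^ (p ^ m * N)) (Psi b w (n + j)) := by
        refine C.r2 w (p ^ m) j hj fun z hz => HA' _ ?_
        refine ⟨⟨0, by omega⟩, Nat.zero_le _, hs, ?_⟩
        show ¬ (p : ℤ_[p]) ∣ (p ^ j • w) _ - (z • g) _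
        rw [Pi.smul_apply, Pi.smul_apply, hg, e0_zero rfl, nsmul_eq_mul, nsmul_eq_mul, mul_one]
        intro h2
        have h3 : (p : ℤ_[p]) ∣ ((p ^ j : ℕ) : ℤ_[p]) * w ⟨0, by omega⟩ := by
          obtain ⟨t, rfl⟩ : ∃ t, j = t + 1 := ⟨j - 1, by omega⟩
          rw [Nat.cast_pow, pow_succ']
          exact Dvd.dvd.mul_right (Dvd.intro _ rfl) _
        have h4 : (p : ℤ_[p]) ∣ (z : ℤ_[p]) := by
          have := dvd_sub h3 h2
          rwa [sub_sub_cancel] at this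
        apply hz
        have h5 : ‖((z : ℤ) : ℤ_[p])‖ < 1 := by
          rw [Int.cast_natCast]
          obtain ⟨c, hc⟩ := h4
          rw [hc]
          have h6 := PadicInt.norm_le_one c
          have h7 : ‖(p : ℤ_[p])‖ < 1 := by
            rw [PadicInt.norm_p]
            exact inv_lt_one_of_one_lt₀ (by exact_mod_cast (Fact.out : p.Prime).one_lt)
          rw [norm_mul]
          nlinarith [norm_nonneg (p : ℤ_[p]), norm_nonneg c]
        have h6 := PadicInt.norm_int_lt_one_iff_dvd (p := p) (z : ℤ)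
        exact_mod_cast h6.1 h5
      have h2 := LeE.pow (comm_pi _) P1 (p ^ m)
      refine h2.trans ?_
      rw [← pow_mul, mul_comm]
      exact h1
    have hR3 : ∀ j, LeE (((p : ℕ) : AddMonoid.End E) ^ (2 * p ^ m + p ^ m * j)) (b.T (p ^ (n + 1 + j) • w)) := by
      intro j
      induction j with
      | zero => simpa using hB
      | succ j ih =>
        have h1 : n + 1 + (j + 1) = (n + 1 + j) + 1 := by omega
        have h2 : 2 * p ^ m + p ^ m * (j + 1) = p ^ m + (2 * p ^ m + p ^ m * j) := by ring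
        have h3 : LeE (((p : ℕ) : AddMonoid.End E) ^ p ^ m) (Psi b w (n + 1 + j)) := by
          have := hR2 (j + 1) (by omega)
          rwa [show n + (j + 1) = n + 1 + j by omega] at this
        rw [h1, Psi_mul, h2, pow_add, (Psi_comm b w _ _).eq]
        exact LeE.mul ((comm_pi _).pow_left _) h3 ih
    have h1 := hR3 (m + 1)
    have h2 := HUP (n + m + 2) hmn le_rfl w
    have e1 : n + m + 2 - n - m = 2 := by omega
    have e2 : n + 1 + (m + 1) = n + m + 2 := by omega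
    rw [e1] at h2
    rw [e2] at h1
    have h3 : SqW b (p ^ (n + m + 2) • w) := hSq p d E b _ fun x => by
      obtain ⟨y, hy⟩ := h2 x
      exact ⟨y, by rw [hy, pi_pow_apply]⟩
    have h4 : LeE (((p : ℕ) : AddMonoid.End E) ^ (l - n - m - 2) * b.T (p ^ (n + m + 2) • w)) (b.T (p ^ l • w)) := by
      intro x
      obtain ⟨y, hy⟩ := (h3 (l - n - m - 2) x).2
      refine ⟨y, ?_⟩
      show (((p : ℕ) : AddMonoid.End E) ^ (l - n - m - 2)) (b.T (p ^ (n + m + 2) • w) x) = _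
      rw [pi_pow_apply, hy, ← mul_smul, ← pow_add]
      congr 4
      omega
    rw [pow_add]
    exact (LeE.mulL _ h1).trans h4

end core

section top
variable {p : ℕ} [Fact p.Prime] {d : ℕ} {X : Type u} [AddCommGroup X] [TopologicalSpace X]
  [IsTopologicalAddGroup X] [CompactSpace X] [T2Space X] (b : Act p d X)

lemma cont_Psi (g : Fin d → ℤ_[p]) (n : ℕ) : Continuous fun x : X => Psi b g n x := by
  have : (fun x : X => Psi b g n x) = fun x => ∑ i ∈ Finset.range p, b.σ ((i * p ^ n) • g) x := by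
    funext x
    exact AddMonoidHom.finsetSum_apply _ _ _
  rw [this]
  exact continuous_finsetSum _ fun i _ => cont_σ b _

lemma closed_rangePsi (g : Fin d → ℤ_[p]) (n : ℕ) :
    IsClosed ((AddMonoidHom.range (Psi b g n) : AddSubgroup X) : Set X) := by
  have h1 : ((AddMonoidHom.range (Psi b g n) : AddSubgroup X) : Set X) =
      Set.range fun x : X => Psi b g n x := by
    ext x; rfl
  rw [h1]
  exact (isCompact_range (cont_Psi b g n)).isClosed

lemma Psi_σ (g : Fin d → ℤ_[p]) (n : ℕ) (k : Fin d → ℤ_[p]) :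
    Commute (Psi b g n) (b.σ k) := by
  unfold Psi
  exact Commute.sum_left _ _ _ fun i _ => σ_comm b _ k

lemma inv_rangePsi (g : Fin d → ℤ_[p]) (n : ℕ) (k : Fin d → ℤ_[p]) :
    ∀ y ∈ (AddMonoidHom.range (Psi b g n) : AddSubgroup X),
      b.σ k y ∈ (AddMonoidHom.range (Psi b g n) : AddSubgroup X) := by
  rintro _ ⟨x, rfl⟩
  exact ⟨b.σ k x, congrArg (fun f : AddMonoid.End X => f x) (Psi_σ b g n k)⟩

end top

theorem stmtW4 (h3 : StmtW3.{u}) (hSq : StmtSq.{u}) : StmtW4.{u} := by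
  intro p _ d X _ _ _ _ _ b s m hs hsd hD
  have key : ∀ n : ℕ, ∃ Y : AddSubgroup X, ∃ inv : ∀ k, ∀ y ∈ Y, b.σ k y ∈ Y,
      ∃ _ : IsClosed (Y : Set X), (∀ x ∈ Y, ∃ z, Psi b (e0 p d) n z = x) ∧
      CycW (b.quot Y inv) (e0 p d) n ∧ DomW (b.quot Y inv) s m := by
    intro n
    refine ⟨AddMonoidHom.range (Psi b (e0 p d) n), inv_rangePsi b _ n, closed_rangePsi b _ n,
      fun x hx => hx, ?_, ?_⟩
    · have hcl := closed_rangePsi b (e0 p d) n
      have : IsClosed ((AddMonoidHom.range (Psi b (e0 p d) n) : AddSubgroup X) : Set X) := hcl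
      refine h3 p d _ _ _ _ fun x => ?_
      obtain ⟨x, rfl⟩ := QuotientAddGroup.mk_surjective x
      have h1 : Psi (b.quot _ (inv_rangePsi b (e0 p d) n)) (e0 p d) n
          (x : X ⧸ (AddMonoidHom.range (Psi b (e0 p d) n) : AddSubgroup X)) =
          ((Psi b (e0 p d) n x : X) :
            X ⧸ (AddMonoidHom.range (Psi b (e0 p d) n) : AddSubgroup X)) := by
        have h2 : Psi (b.quot _ (inv_rangePsi b (e0 p d) n)) (e0 p d) n
          (x : X ⧸ (AddMonoidHom.range (Psi b (e0 p d) n) : AddSubgroup X)) =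
          ∑ i ∈ Finset.range p, (b.quot _ (inv_rangePsi b (e0 p d) n)).σ ((i * p ^ n) • e0 p d)
            (x : X ⧸ (AddMonoidHom.range (Psi b (e0 p d) n) : AddSubgroup X)) :=
          AddMonoidHom.finsetSum_apply _ _ _
        have h3 : Psi b (e0 p d) n x = ∑ i ∈ Finset.range p, b.σ ((i * p ^ n) • e0 p d) x :=
          AddMonoidHom.finsetSum_apply _ _ _
        rw [h2, h3]
        exact (map_sum (QuotientAddGroup.mk'
          (AddMonoidHom.range (Psi b (e0 p d) n) : AddSubgroup X)) _ _).symm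
      rw [h1]
      exact (QuotientAddGroup.eq_zero_iff _).2 ⟨x, rfl⟩
    · intro u hu k x
      obtain ⟨x, rfl⟩ := QuotientAddGroup.mk_surjective x
      obtain ⟨y, hy⟩ := hD u hu k x
      refine ⟨(y : X ⧸ _), ?_⟩
      rw [quot_T, quot_T, hy]
  have trans : ∀ n : ℕ, ∀ Y : AddSubgroup X, (∀ x ∈ Y, ∃ z, Psi b (e0 p d) n z = x) →
      ∀ u v : X, (u : X ⧸ Y) = (v : X ⧸ Y) → ∃ z, u = v + Psi b (e0 p d) n z := by
    intro n Y hY u v huv
    have h1 : u - v ∈ Y := by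
      have := QuotientAddGroup.eq_iff_sub_mem.1 huv
      exact this
    obtain ⟨z, hz⟩ := hY _ h1
    exact ⟨z, by rw [hz]; abel⟩
  have hq : ∀ n : ℕ, ∃ Y : AddSubgroup X, ∃ inv : ∀ k, ∀ y ∈ Y, b.σ k y ∈ Y,
      (∀ x ∈ Y, ∃ z, Psi b (e0 p d) n z = x) ∧
      LeE ((p : ℕ) : AddMonoid.End (X ⧸ Y)) ((b.quot Y inv).T (e0 p d) ^ (p ^ n * (p - 1))) ∧
      LeE ((b.quot Y inv).T (e0 p d) ^ (p ^ n * (p - 1))) ((p : ℕ) : AddMonoid.End (X ⧸ Y)) ∧
      (∀ j, j + m ≤ n → ∀ u : Fin d → ℤ_[p], Unit' 0 s u →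
        LeE ((b.quot Y inv).T (e0 p d) ^ p ^ (m + j)) ((b.quot Y inv).T (p ^ j • u))) ∧
      (∀ l, m + 1 ≤ n → n + m + 2 ≤ l → ∀ k, LeE ((b.quot Y inv).T (p ^ l • k))
        (((p : ℕ) : AddMonoid.End (X ⧸ Y)) ^ (l - n - m))) ∧
      (∀ l, m + 1 ≤ n → n + m + 2 ≤ l → ∀ w : Fin d → ℤ_[p], Unit' 1 s w →
        LeE (((p : ℕ) : AddMonoid.End (X ⧸ Y)) ^
          (l - n - m - 2 + (2 * p ^ m + p ^ m * (m + 1)))) ((b.quot Y inv).T (p ^ l • w))) := by
    intro n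
    obtain ⟨Y, inv, hcl, hY, hC, hDq⟩ := key n
    have : IsClosed (Y : Set X) := hcl
    obtain ⟨a1, a2, a3, a4, a5⟩ := core (b.quot Y inv) hSq s m n hs hsd hDq hC
    exact ⟨Y, inv, hY, a1, a2, a3, a4, a5⟩
  constructor
  · intro n x
    obtain ⟨Y, inv, hY, a1, a2, a3, a4, a5⟩ := hq n
    obtain ⟨y, hy⟩ := a1 (x : X ⧸ Y)
    obtain ⟨y, rfl⟩ := QuotientAddGroup.mk_surjective y
    rw [quot_Tpow] at hy
    obtain ⟨z, hz⟩ := trans n Y hY (p • x) _ hy
    exact ⟨y, z, hz⟩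
  · intro n x
    obtain ⟨Y, inv, hY, a1, a2, a3, a4, a5⟩ := hq n
    obtain ⟨y, hy⟩ := a2 (x : X ⧸ Y)
    obtain ⟨y, rfl⟩ := QuotientAddGroup.mk_surjective y
    rw [quot_Tpow] at hy
    obtain ⟨z, hz⟩ := trans n Y hY _ (p • y) hy
    exact ⟨y, z, hz⟩
  · intro n j hj u hu x
    obtain ⟨Y, inv, hY, a1, a2, a3, a4, a5⟩ := hq n
    obtain ⟨y, hy⟩ := a3 j hj u hu (x : X ⧸ Y)
    obtain ⟨y, rfl⟩ := QuotientAddGroup.mk_surjective y
    rw [quot_Tpow, quot_T] at hy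
    obtain ⟨z, hz⟩ := trans n Y hY _ _ hy
    exact ⟨y, z, hz⟩
  · intro n l hmn hl k x
    obtain ⟨Y, inv, hY, a1, a2, a3, a4, a5⟩ := hq n
    obtain ⟨y, hy⟩ := a4 l hmn hl k (x : X ⧸ Y)
    obtain ⟨y, rfl⟩ := QuotientAddGroup.mk_surjective y
    rw [quot_T, pi_pow_apply] at hy
    obtain ⟨z, hz⟩ := trans n Y hY _ (p ^ (l - n - m) • y) hy
    exact ⟨y, z, hz⟩
  · intro n l hmn hl w hw x
    obtain ⟨Y, inv, hY, a1, a2, a3, a4, a5⟩ := hq n
    obtain ⟨y, hy⟩ := a5 l hmn hl w hw (x : X ⧸ Y)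
    obtain ⟨y, rfl⟩ := QuotientAddGroup.mk_surjective y
    rw [quot_T, pi_pow_apply] at hy
    obtain ⟨z, hz⟩ := trans n Y hY
      (p ^ (l - n - m - 2 + (2 * p ^ m + p ^ m * (m + 1))) • x) _ hy
    exact ⟨y, z, hz⟩

end Pool.Agent.Helper5.Full
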